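import Pool.Agent.Helper63.HO.P21

/-!
# Project HO (MP_19c155_gt), piece HO-23: the map `y ↦ (y, hext W y)`
-/

open MeasureTheory Set Metric Filter Module
open scoped NNReal Topology RealInnerProductSpace ENNReal Real ContDiff Manifold

namespace Pool.Agent.Helper19.HO

section P23

variable {E : Type*} [NormedAddCommGroup E] [InnerProductSpace ℝ E] [FiniteDimensional ℝ E]

omit [InnerProductSpace ℝ E] [FiniteDimensional ℝ E] in
private theorem P23_norm_toLp (a b : E) :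
    ‖(WithLp.toLp 2 (a, b) : WithLp 2 (E × E))‖ = √(‖a‖ ^ 2 + ‖b‖ ^ 2) :=
  WithLp.prod_norm_eq_of_L2 _

private theorem P23_hasFDerivAt {k : ℕ} [Fact (finrank ℝ E = k + 1)] {W : sphere (0 : E) 1 → E}
    (hW : ContMDiff (𝓡 k) 𝓘(ℝ, E) 1 W) {y : E} (hy : y ≠ 0) :
    HasFDerivAt (gmap W)
      (((WithLp.prodContinuousLinearEquiv 2 ℝ E E).symm : E × E →L[ℝ] WithLp 2 (E × E)) ∘L
        ((ContinuousLinearMap.id ℝ E).prod (fderiv ℝ (hext W) y))) y := by
  have hd : DifferentiableAt ℝ (hext W) y :=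
    ((contDiffOn_hext hW).contDiffAt (isOpen_compl_singleton.mem_nhds hy)).differentiableAt
      one_ne_zero
  have h1 : HasFDerivAt (fun z : E => (z, hext W z))
      ((ContinuousLinearMap.id ℝ E).prod (fderiv ℝ (hext W) y)) y :=
    (hasFDerivAt_id y).prodMk hd.hasFDerivAt
  exact ((WithLp.prodContinuousLinearEquiv 2 ℝ E E).symm :
    E × E →L[ℝ] WithLp 2 (E × E)).hasFDerivAt.comp y h1

theorem oddMap_gmap {k : ℕ} [Fact (finrank ℝ E = k + 1)] {W : sphere (0 : E) 1 → E}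
    (hW : ContMDiff (𝓡 k) 𝓘(ℝ, E) 1 W) (hodd : ∀ x, W (-x) = -W x) {r : ℝ}
    (hn : ∀ x, ‖W x‖ = r) : OddMap (gmap W) √(1 + r ^ 2) where
  smooth := by
    have h1 : ContDiffOn ℝ 1 (fun z : E => (z, hext W z)) {0}ᶜ :=
      contDiffOn_id.prodMk (contDiffOn_hext hW)
    exact ((WithLp.prodContinuousLinearEquiv 2 ℝ E E).symm :
      E × E →L[ℝ] WithLp 2 (E × E)).contDiff.comp_contDiffOn h1
  homog := by
    intro y t ht
    simp only [gmap, hext_homog W y t ht]
    rw [← WithLp.toLp_smul, Prod.smul_mk]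
  odd := by
    intro y
    simp only [gmap, hext_odd hodd y]
    rw [← WithLp.toLp_neg, Prod.neg_mk]
  norm := by
    intro y
    simp only [gmap]
    rw [P23_norm_toLp, norm_hext hn, ← Real.sqrt_sq (norm_nonneg y),
      ← Real.sqrt_mul (by positivity), Real.sqrt_sq (norm_nonneg y)]
    congr 1
    ring

theorem fderiv_gmap {k : ℕ} [Fact (finrank ℝ E = k + 1)] {W : sphere (0 : E) 1 → E}
    (hW : ContMDiff (𝓡 k) 𝓘(ℝ, E) 1 W) {y : E} (hy : y ≠ 0) (δ : E) :
    fderiv ℝ (gmap W) y δ = WithLp.toLp 2 (δ, fderiv ℝ (hext W) y δ) := by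
  rw [(P23_hasFDerivAt hW hy).fderiv]
  rfl

theorem Jac_gmap {k : ℕ} [Fact (finrank ℝ E = k + 1)] {W : sphere (0 : E) 1 → E}
    (hW : ContMDiff (𝓡 k) 𝓘(ℝ, E) 1 W) {y : E} (hy : y ≠ 0) :
    Jac (fderiv ℝ (gmap W) y)
      = √((1 + (fderiv ℝ (hext W) y).adjoint ∘L fderiv ℝ (hext W) y).det) := by
  have h : (fderiv ℝ (gmap W) y).adjoint ∘L fderiv ℝ (gmap W) y =
      1 + (fderiv ℝ (hext W) y).adjoint ∘L fderiv ℝ (hext W) y := by
    ext δ
    apply ext_inner_left ℝ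
    intro ε
    rw [ContinuousLinearMap.comp_apply, ContinuousLinearMap.adjoint_inner_right, fderiv_gmap hW hy,
      fderiv_gmap hW hy, WithLp.prod_inner_apply, add_apply, inner_add_right,
      ContinuousLinearMap.comp_apply, ContinuousLinearMap.adjoint_inner_right]
    rfl
  unfold Jac
  rw [h]

end P23

end Pool.Agent.Helper19.HO
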