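import Pool.Agent.Helper49.HO.P20
import Pool.Agent.Helper63.HO.P21
import Pool.Agent.Helper83.HO.P22

/-!
# Project HO (MP_19c155_gt), piece HO-25: the volume of the Hopf fields
-/

open MeasureTheory Set Metric Filter Module
open scoped NNReal Topology RealInnerProductSpace ENNReal Real ContDiff Manifold

namespace Pool.Agent.Helper19.HO

section P25

variable {E : Type*} [NormedAddCommGroup E] [InnerProductSpace ℝ E] [FiniteDimensional ℝ E]

omit [FiniteDimensional ℝ E] in
private theorem P25_hext (J : E →L[ℝ] E) (r : ℝ) :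
    hext (fun y : sphere (0 : E) 1 => r • J y) = fun y => (r • J) y := by
  funext y
  by_cases hy : y = 0
  · subst hy
    simp [hext]
  · have h0 : ‖y‖ ≠ 0 := norm_ne_zero_iff.2 hy
    have h1 : radExt (fun y : sphere (0 : E) 1 => r • J y) y = r • J (‖y‖⁻¹ • y) := dif_neg hy
    unfold hext
    rw [h1, map_smul, smul_comm r, smul_smul, mul_inv_cancel₀ h0, one_smul]
    rfl

private theorem P25_pointwise (m : ℕ) (hfr : finrank ℝ E = 2 * m + 2)
    {J : E →L[ℝ] E} (hJ : ∀ x y, ⟪J x, J y⟫ = ⟪x, y⟫) (hJJ : ∀ x, J (J x) = -x) {r : ℝ} (hr : 0 < r)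
    (x : sphere (0 : E) 1) :
    √((1 + (covDeriv (fun y : sphere (0 : E) 1 => r • J y) x).adjoint ∘L
        covDeriv (fun y : sphere (0 : E) 1 => r • J y) x).det) = (1 + r ^ 2) ^ m := by
  have hF : Fact (finrank ℝ E = (2 * m + 1) + 1) := ⟨by omega⟩
  set W : sphere (0 : E) 1 → E := fun y => r • J y with hWdef
  have hWx : ∀ y : sphere (0 : E) 1, W y = r • J y := fun y => rfl
  have hW : ContMDiff (𝓡 (2 * m + 1)) 𝓘(ℝ, E) 1 W := by
    have h1 : ContDiff ℝ 1 (fun y : E => (r • J) y) := (r • J).contDiff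
    exact h1.contMDiff.comp contMDiff_coe_sphere
  have hperp : ∀ y : E, ⟪y, J y⟫ = 0 := by
    intro y
    have h1 := hJ y (J y)
    rw [hJJ, inner_neg_right, real_inner_comm] at h1
    linarith
  have hnJ : ∀ y : E, ‖J y‖ = ‖y‖ := by
    intro y
    have h1 := hJ y y
    rw [real_inner_self_eq_norm_sq, real_inner_self_eq_norm_sq] at h1
    exact (sq_eq_sq₀ (norm_nonneg _) (norm_nonneg _)).1 h1
  have ht : ∀ y : sphere (0 : E) 1, ⟪(y : E), W y⟫ = 0 := by
    intro y
    rw [hWx, inner_smul_right, hperp, mul_zero]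
  have hn1 : ∀ y : sphere (0 : E) 1, ‖(y : E)‖ = 1 := fun y => mem_sphere_zero_iff_norm.1 y.2
  have hn : ∀ y : sphere (0 : E) 1, ‖W y‖ = r := by
    intro y
    rw [hWx, norm_smul, hnJ, hn1, Real.norm_eq_abs, abs_of_pos hr, mul_one]
  have hfd : fderiv ℝ (hext W) x = r • J := by
    rw [hWdef, P25_hext J r]
    exact (r • J).hasFDerivAt.fderiv
  have hT : ∀ δ, (r • J) δ = covDeriv W x δ + ⟪(x : E), δ⟫ • W x - ⟪W x, δ⟫ • (x : E) := by
    intro δ
    rw [← hfd]
    exact fderiv_hext_apply hW ht x δ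
  have hAw : covDeriv W x (W x) = 0 := by
    have h1 := hT (W x)
    have h2 : (r • J) (W x) = -(r ^ 2) • (x : E) := by
      rw [hWx, map_smul]
      change r • r • J (J x) = _
      rw [hJJ, smul_smul, smul_neg, neg_smul]
      congr 2
      ring
    rw [h2, ht x, real_inner_self_eq_norm_sq, hn x, zero_smul, add_zero] at h1
    have h3 : covDeriv W x (W x) = -(r ^ 2) • (x : E) + r ^ 2 • (x : E) := by
      rw [h1, sub_add_cancel]
    rw [h3, neg_smul, neg_add_cancel]
  have key := sqrt_det_eq (hn1 x) (hn x) (ht x) (covDeriv_self hW x) (inner_covDeriv W x)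
    (inner_field_covDeriv hW ht hn x) hT hAw
  have hdet : (1 + (r • J).adjoint ∘L (r • J)).det = ((1 + r ^ 2) ^ (m + 1)) ^ 2 := by
    have h1 : (1 + (r • J).adjoint ∘L (r • J)) = (1 + r ^ 2) • (1 : E →L[ℝ] E) := by
      ext δ
      apply ext_inner_left ℝ
      intro ε
      rw [add_apply, inner_add_right, ContinuousLinearMap.comp_apply,
        ContinuousLinearMap.adjoint_inner_right]
      change ⟪ε, δ⟫ + ⟪r • J ε, r • J δ⟫ = ⟪ε, (1 + r ^ 2) • δ⟫
      rw [inner_smul_left, inner_smul_right, inner_smul_right, hJ]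
      simp
      ring
    rw [h1]
    change LinearMap.det ((1 + r ^ 2) • (LinearMap.id : E →ₗ[ℝ] E)) = _
    rw [LinearMap.det_smul, LinearMap.det_id, hfr, mul_one, ← pow_mul]
    congr 1
    ring
  rw [hdet, Real.sqrt_sq (by positivity), pow_succ] at key
  have hpos : (0 : ℝ) < 1 + r ^ 2 := by positivity
  have h4 : (1 + r ^ 2) * √((1 + (covDeriv W x).adjoint ∘L covDeriv W x).det)
      = (1 + r ^ 2) * (1 + r ^ 2) ^ m := by
    rw [← key]; ring
  exact mul_left_cancel₀ hpos.ne' h4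

theorem volume_hopf [MeasurableSpace E] [BorelSpace E] (m : ℕ) (hfr : finrank ℝ E = 2 * m + 2)
    {J : E →L[ℝ] E} (hJ : ∀ x y, ⟪J x, J y⟫ = ⟪x, y⟫) (hJJ : ∀ x, J (J x) = -x) {r : ℝ} (hr : 0 < r) :
    ∫ x : sphere (0 : E) 1, √((1 + (covDeriv (fun y : sphere (0 : E) 1 => r • J y) x).adjoint ∘L
        covDeriv (fun y : sphere (0 : E) 1 => r • J y) x).det) ∂(volume : Measure E).toSphere
      = (1 + r ^ 2) ^ m * (volume : Measure E).toSphere.real univ := by
  simp only [P25_pointwise m hfr hJ hJJ hr]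
  rw [integral_const, smul_eq_mul, mul_comm]

end P25

end Pool.Agent.Helper19.HO
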